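import Pool.Agent.H961.T4.Stm2
import Pool.Agent.H961.T2.B9

/-!
# Project PN, task UBQ
-/

set_option autoImplicit false

namespace Pool.Agent.H727.PN

open Finset Equiv Matrix Q292.LC Pool.Agent.H961.T2 Pool.Agent.H961.T3 Pool.Agent.H961.T4
open Pool.Agent.Y998.ST (stirExp nnRate qq hop cycleLen gk)

theorem ubq_nn (d L : ℕ) (x y : Fin d → ZMod L) : 0 ≤ nnRate d L x y := by
  unfold nnRate
  split_ifs
  · exact zero_le_one
  · exact le_rfl

theorem ubq_sm (L : ℕ) [NeZero L] (t w : ℝ) (x : Fin 2 → ZMod L) :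
    stirExp (nnRate 2 L) t (fun g => sm w g) =
      (L : ℝ) ^ 2 * stirExp (nnRate 2 L) t (fun g => w ^ (cyc g x).card) := by
  have h1 : (fun g : Perm (Fin 2 → ZMod L) => sm w g) =
      (fun g => ∑ y ∈ (univ : Finset (Fin 2 → ZMod L)), (fun y g => w ^ (cyc g y).card) y g) := rfl
  rw [h1, Pool.Agent.Q277.LC.stirExp_sum]
  have h2 : ∀ y ∈ (univ : Finset (Fin 2 → ZMod L)),
      stirExp (nnRate 2 L) t ((fun y g => w ^ (cyc g y).card) y) =
        stirExp (nnRate 2 L) t (fun g => w ^ (cyc g x).card) := by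
    intro y _
    have h3 := cyc_trans2 (L := L) (d := 2) t (fun n => w ^ n) y
    have h4 := cyc_trans2 (L := L) (d := 2) t (fun n => w ^ n) x
    exact h3.trans h4.symm
  rw [sum_congr rfl h2, sum_const, nsmul_eq_mul, card_univ]
  congr 1
  rw [Fintype.card_fun, ZMod.card, Fintype.card_fin]
  push_cast
  ring

theorem ubq (hMO1 : S_MO1) : S_UBQ := by
  obtain ⟨m, h⟩ := hMO1
  obtain ⟨T₁, hT₁, h⟩ := h 1 one_pos
  refine ⟨1, max T₁ (2 ^ 64), m, le_rfl, le_trans (by norm_num) (le_max_right _ _), ?_⟩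
  intro L _ t n hTt hTL hlog hn1 hnt x
  have ht1 : T₁ ≤ t := (le_max_left _ _).trans hTt
  have ht2 : (2 : ℝ) ^ 64 ≤ t := (le_max_right _ _).trans hTt
  have ht0 : (1 : ℝ) ≤ t := le_trans (by norm_num) ht2
  have htpos : (0 : ℝ) < t := by linarith
  have hT1L : T₁ * t ≤ L := by
    refine le_trans ?_ hTL
    exact mul_le_mul_of_nonneg_right (le_max_left _ _) htpos.le
  have hL3' : (3 : ℝ) ≤ L := by
    refine le_trans ?_ hT1L
    have : 1 * (2 : ℝ) ^ 64 ≤ T₁ * t := mul_le_mul hT₁ ht2 (by positivity) (by linarith)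
    refine le_trans (by norm_num) this
  have hL3 : 3 ≤ L := by exact_mod_cast hL3'
  have hn : (1 : ℝ) ≤ n := by exact_mod_cast hn1
  have hnpos : (0 : ℝ) < n := by linarith
  -- the weight
  set w : ℝ := 1 - 1 / (2 * n) with hw
  have hinv : 1 / (2 * (n : ℝ)) ≤ 1 / 2 := by
    apply one_div_le_one_div_of_le (by norm_num)
    linarith
  have hinv0 : 0 < 1 / (2 * (n : ℝ)) := by positivity
  have hw0 : 0 ≤ w := by rw [hw]; linarith
  have hw1 : w < 1 := by rw [hw]; linarith
  have h1w : 1 / (1 - w) = 2 * n := by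
    rw [hw]
    field_simp
    ring
  have hcond : 1 / (1 - w) ≤ t ^ (1 / 32 : ℝ) := by
    rw [h1w]
    have e1 : (2 : ℝ) ≤ t ^ (1 / 64 : ℝ) := by
      have e2 : ((2 : ℝ) ^ 64) ^ (1 / 64 : ℝ) ≤ t ^ (1 / 64 : ℝ) :=
        Real.rpow_le_rpow (by positivity) ht2 (by norm_num)
      have e3 : ((2 : ℝ) ^ 64) ^ (1 / 64 : ℝ) = 2 := by
        rw [← Real.rpow_natCast, ← Real.rpow_mul (by norm_num)]
        norm_num
      rwa [e3] at e2
    have e4 : t ^ (1 / 32 : ℝ) = t ^ (1 / 64 : ℝ) * t ^ (1 / 64 : ℝ) := by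
      rw [← Real.rpow_add htpos]
      norm_num
    rw [e4]
    exact mul_le_mul e1 hnt hnpos.le (by positivity)
  have key := (abs_le.1 (h L t w hL3 ht1 hT1L hlog hw0 hw1 hcond)).2
  rw [h1w, one_mul, ubq_sm L t w x] at key
  set E := stirExp (nnRate 2 L) t (fun g => w ^ (cyc g x).card) with hE
  have hLpos : (0 : ℝ) < (L : ℝ) ^ 2 := by positivity
  have e5 : 4 * Real.pi * t / (L : ℝ) ^ 2 * ((L : ℝ) ^ 2 * E) = 4 * Real.pi * t * E := by
    field_simp
  rw [e5] at key
  -- Bernoulli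
  have hmono : stirExp (nnRate 2 L) t (fun g => if (cyc g x).card ≤ n then 1 else 0) ≤
      stirExp (nnRate 2 L) t (fun g => 2 * w ^ (cyc g x).card) := by
    apply Pool.Agent.Y998.ST.exp_mono (ubq_nn 2 L) htpos.le
    intro g
    split_ifs with hc
    · have b1 : (1 : ℝ) / 2 ≤ w ^ n := by
        have b2 := one_add_mul_le_pow (a := -(1 / (2 * (n : ℝ)))) (by linarith) n
        have b3 : 1 + (n : ℝ) * -(1 / (2 * (n : ℝ))) = 1 / 2 := by
          field_simp
          ring
        rw [b3] at b2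
        have b4 : (1 : ℝ) + -(1 / (2 * (n : ℝ))) = w := by rw [hw]; ring
        rwa [b4] at b2
      have b5 : w ^ n ≤ w ^ (cyc g x).card := pow_le_pow_of_le_one hw0 hw1.le hc
      linarith
    · positivity
  have hmul : stirExp (nnRate 2 L) t (fun g => 2 * w ^ (cyc g x).card) = 2 * E := by
    rw [hE]
    unfold stirExp
    rw [mul_sum]
    exact sum_congr rfl fun g _ => by ring
  rw [hmul] at hmono
  refine hmono.trans ?_
  -- logarithms
  have hlog2 : Real.log (2 * n) ≤ 1 + Real.log n := by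
    rw [Real.log_mul (by norm_num) hnpos.ne']
    have := Real.log_two_lt_d9
    linarith
  have hlogn : 0 ≤ Real.log n := Real.log_nonneg hn
  have hpi := Real.pi_gt_three
  have hmain : 4 * Real.pi * t * E ≤ 3 * (1 + Real.log n) := by linarith
  rw [one_mul, le_div_iff₀ htpos]
  have hE0 : 0 ≤ E := by
    rw [hE]
    unfold stirExp
    exact sum_nonneg fun g _ => mul_nonneg
      (Pool.Agent.Y998.ST.law_nonneg (ubq_nn 2 L) htpos.le g) (by positivity)
  have hf : 12 * (t * E) ≤ 4 * Real.pi * t * E := by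
    have : 0 ≤ t * E := by positivity
    nlinarith
  have : 2 * E * t = 2 * (t * E) := by ring
  rw [this]
  linarith

end Pool.Agent.H727.PN
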